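import Mathlib

open Polynomial

namespace Pool.Agent.Results.MP_3527b9_nt.SuperPspAP

/-- `n` is a pseudoprime to base `a`: `n` is composite and `a ^ (n - 1) ≡ 1 (mod n)`. -/
def IsPsp (a n : ℕ) : Prop := 1 < n ∧ ¬ n.Prime ∧ a ^ (n - 1) ≡ 1 [MOD n]

/-- `n` is a super pseudoprime to base `a`: `n` is composite and every divisor `d > 1` of `n`
is a prime or a pseudoprime to base `a`. -/
def IsSuperPsp (a n : ℕ) : Prop :=
  1 < n ∧ ¬ n.Prime ∧ ∀ d : ℕ, d ∣ n → 1 < d → (d.Prime ∨ IsPsp a d)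

/-! ### A criterion -/

theorem modEq_one_of_dvd {T N : ℕ} (hq : ∀ q : ℕ, q.Prime → q ∣ T → q ≡ 1 [MOD N]) :
    ∀ d : ℕ, 0 < d → d ∣ T → d ≡ 1 [MOD N] := by
  intro d
  induction d using Nat.strong_induction_on with
  | _ d ih =>
    intro hd hdT
    by_cases h1 : d = 1
    · subst h1; rfl
    · obtain ⟨q, hqp, e, rfl⟩ := Nat.exists_prime_and_dvd h1
      have he : 0 < e := Nat.pos_of_mul_pos_left hd
      have hlt : e < q * e := by nlinarith [hqp.two_le]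
      have h2 := ih e hlt he (dvd_trans (dvd_mul_left e q) hdT)
      have h3 := hq q hqp (dvd_trans (dvd_mul_right q e) hdT)
      simpa using h3.mul h2

theorem superPsp_of {T N : ℕ} (hT : 1 < T) (hTn : ¬ T.Prime)
    (hdvd : 2 ^ N ≡ 1 [MOD T])
    (hq : ∀ q : ℕ, q.Prime → q ∣ T → N ∣ q - 1) : IsSuperPsp 2 T := by
  refine ⟨hT, hTn, fun d hd hd1 => ?_⟩
  by_cases hp : d.Prime
  · exact Or.inl hp
  · refine Or.inr ⟨hd1, hp, ?_⟩
    have h1 : d ≡ 1 [MOD N] := modEq_one_of_dvd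
      (fun q hqp hqT => ((Nat.modEq_iff_dvd' hqp.one_lt.le).2 (hq q hqp hqT)).symm) d (by omega) hd
    obtain ⟨c, hc⟩ := (Nat.modEq_iff_dvd' hd1.le).1 h1.symm
    rw [hc, pow_mul]
    have h2 : 2 ^ N ≡ 1 [MOD d] := hdvd.of_dvd hd
    simpa using h2.pow c

/-! ### Orders -/

theorem orderOf_of_orderOf_pow {G : Type*} [Monoid G] {g : G} {m k : ℕ} (hm : 0 < m) (hk : 0 < k)
    (hrad : ∀ p : ℕ, p.Prime → p ∣ k → p ∣ m) (h : orderOf (g ^ k) = m) :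
    orderOf g = m * k := by
  apply orderOf_eq_of_pow_and_pow_div_prime (Nat.mul_pos hm hk)
  · rw [mul_comm, pow_mul, ← h]; exact pow_orderOf_eq_one _
  · intro p hp hpd
    have hpm : p ∣ m := by
      rcases (Nat.Prime.dvd_mul hp).1 hpd with h1 | h1
      · exact h1
      · exact hrad p hp h1
    obtain ⟨c, hc⟩ := hpm
    have hc0 : 0 < c := by
      rcases Nat.eq_zero_or_pos c with h0 | h0
      · subst h0; omega
      · exact h0
    have hdiv : m * k / p = k * c := by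
      rw [hc]
      rw [show p * c * k = p * (k * c) by ring]
      exact Nat.mul_div_cancel_left _ hp.pos
    rw [hdiv, pow_mul]
    intro hone
    have h2 : orderOf (g ^ k) ∣ c := orderOf_dvd_of_pow_eq_one hone
    rw [h] at h2
    have h3 := Nat.le_of_dvd hc0 h2
    have h4 := hp.two_le
    nlinarith

theorem dvd_sub_one_of_root {q m k : ℕ} (hqp : q.Prime) (hq2 : q ≠ 2) (hqm : ¬ q ∣ m)
    (hk : 0 < k) (hrad : ∀ p : ℕ, p.Prime → p ∣ k → p ∣ m)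
    (hroot : (cyclotomic m (ZMod q)).eval ((2 : ZMod q) ^ k) = 0) : m * k ∣ q - 1 := by
  have : Fact q.Prime := ⟨hqp⟩
  have hm : 0 < m := by
    rcases Nat.eq_zero_or_pos m with h0 | h0
    · subst h0; simp at hqm
    · exact h0
  have : NeZero (m : ZMod q) := ⟨by
    intro h
    exact hqm ((ZMod.natCast_eq_zero_iff _ _).1 h)⟩
  have hprim : IsPrimitiveRoot ((2 : ZMod q) ^ k) m := isRoot_cyclotomic_iff.1 hroot
  have hord : orderOf ((2 : ZMod q) ^ k) = m := hprim.eq_orderOf.symm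
  have h2 : orderOf (2 : ZMod q) = m * k := orderOf_of_orderOf_pow hm hk hrad hord
  rw [← h2]
  apply ZMod.orderOf_dvd_card_sub_one
  intro h
  have h3 : ((2 : ℕ) : ZMod q) = 0 := by exact_mod_cast h
  have h4 := (ZMod.natCast_eq_zero_iff _ _).1 h3
  exact hq2 ((Nat.prime_dvd_prime_iff_eq hqp Nat.prime_two).1 h4)

/-! ### Some cyclotomic polynomials -/

theorem eval_cyc15 {R : Type*} [CommRing R] (x : R) :
    (cyclotomic 15 R).eval x = x ^ 8 - x ^ 7 + x ^ 5 - x ^ 4 + x ^ 3 - x + 1 := by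
  have h : cyclotomic 15 ℤ = X ^ 8 - X ^ 7 + X ^ 5 - X ^ 4 + X ^ 3 - X + 1 := by
    apply mul_right_cancel₀ (cyclotomic_ne_zero 3 ℤ)
    rw [show 15 = 3 * 5 by rfl,
      ← cyclotomic_expand_eq_cyclotomic_mul Nat.prime_five (by norm_num1)]
    simp only [cyclotomic_three, map_add, map_pow, expand_X, map_one]
    ring
  rw [← map_cyclotomic_int, h]
  simp

theorem eval_cyc30 {R : Type*} [CommRing R] (x : R) :
    (cyclotomic 30 R).eval x = x ^ 8 + x ^ 7 - x ^ 5 - x ^ 4 - x ^ 3 + x + 1 := by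
  have h15 : cyclotomic 15 ℤ = X ^ 8 - X ^ 7 + X ^ 5 - X ^ 4 + X ^ 3 - X + 1 := by
    apply mul_right_cancel₀ (cyclotomic_ne_zero 3 ℤ)
    rw [show 15 = 3 * 5 by rfl,
      ← cyclotomic_expand_eq_cyclotomic_mul Nat.prime_five (by norm_num1)]
    simp only [cyclotomic_three, map_add, map_pow, expand_X, map_one]
    ring
  have h : cyclotomic 30 ℤ = X ^ 8 + X ^ 7 - X ^ 5 - X ^ 4 - X ^ 3 + X + 1 := by
    apply mul_right_cancel₀ (cyclotomic_ne_zero 15 ℤ)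
    rw [show 30 = 15 * 2 by rfl,
      ← cyclotomic_expand_eq_cyclotomic_mul Nat.prime_two (by norm_num1)]
    simp only [h15, map_add, map_sub, map_pow, expand_X, map_one]
    ring
  rw [← map_cyclotomic_int, h]
  simp

theorem eval_cyc60 {R : Type*} [CommRing R] (x : R) :
    (cyclotomic 60 R).eval x = x ^ 16 + x ^ 14 - x ^ 10 - x ^ 8 - x ^ 6 + x ^ 2 + 1 := by
  rw [show 60 = 30 * 2 by rfl,
    ← cyclotomic_expand_eq_cyclotomic Nat.prime_two (by norm_num1), expand_eval, eval_cyc30]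
  ring

theorem eval_cyc48 {R : Type*} [CommRing R] (x : R) :
    (cyclotomic 48 R).eval x = x ^ 16 - x ^ 8 + 1 := by
  rw [show 48 = 24 * 2 by rfl,
    ← cyclotomic_expand_eq_cyclotomic Nat.prime_two (by norm_num1), expand_eval,
    show 24 = 12 * 2 by rfl,
    ← cyclotomic_expand_eq_cyclotomic Nat.prime_two (by norm_num1), expand_eval,
    show 12 = 6 * 2 by rfl,
    ← cyclotomic_expand_eq_cyclotomic Nat.prime_two (by norm_num1), expand_eval,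
    cyclotomic_six]
  simp
  ring

theorem eval_cyc240 {R : Type*} [CommRing R] (x : R) :
    x ^ 80 - x ^ 40 + 1 = (cyclotomic 240 R).eval x * (x ^ 16 - x ^ 8 + 1) := by
  rw [← eval_cyc48 x, ← eval_mul, show 240 = 48 * 5 by rfl,
    ← cyclotomic_expand_eq_cyclotomic_mul Nat.prime_five (by norm_num1), expand_eval, eval_cyc48]
  ring

/-! ### The three terms -/

/-- `x ^ 2 = 4` in `ZMod 30` for `x = 2 ^ k`, `k` odd. -/
theorem sq_zmod30 {k : ℕ} (hodd : Odd k) : (((2 : ZMod 30) ^ k)) ^ 2 = 4 := by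
  obtain ⟨s, rfl⟩ := hodd
  induction s with
  | zero => decide
  | succ s ih =>
    have h : ((2 : ZMod 30) ^ (2 * (s + 1) + 1)) ^ 2 = ((2 : ZMod 30) ^ (2 * s + 1)) ^ 2 * 16 := by
      rw [show (2 : ZMod 30) ^ (2 * (s + 1) + 1) = (2 : ZMod 30) ^ (2 * s + 1) * 4 by
        rw [show 2 * (s + 1) + 1 = 2 * s + 1 + 2 by ring, pow_add]; norm_num]
      rw [mul_pow]
      congr 1
    rw [h, ih]
    decide

/-- a number which is `1` in `ZMod 30` is prime to `30` -/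
theorem not_dvd_of_zmod30 {T : ℕ} (h : ((T : ℤ) : ZMod 30) = 1) {q : ℕ} (hq : q.Prime)
    (hqT : q ∣ T) : ¬ q ∣ 30 := by
  intro hq30
  have h1 : ((T : ℕ) : ZMod 30) = ((1 : ℕ) : ZMod 30) := by exact_mod_cast h
  have h2 : T ≡ 1 [MOD 30] := (ZMod.natCast_eq_natCast_iff _ _ _).1 h1
  have h3 : T ≡ 1 [MOD q] := h2.of_dvd hq30
  have h4 : T ≡ 0 [MOD q] := (Nat.modEq_zero_iff_dvd).2 hqT
  have h5 : q ∣ 1 := (Nat.modEq_zero_iff_dvd).1 (h3.symm.trans h4)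
  exact hq.one_lt.ne' (Nat.dvd_one.1 h5)

/-- `2 ^ N ≡ 1 (mod T)` from an integer divisibility. -/
theorem pow_modEq_of_int_dvd {T N : ℕ} (h : (T : ℤ) ∣ (2 : ℤ) ^ N - 1) : 2 ^ N ≡ 1 [MOD T] := by
  apply Nat.ModEq.symm
  rw [Nat.modEq_iff_dvd]
  exact_mod_cast h

theorem two_le_x {k : ℕ} (hk : 0 < k) : (2 : ℤ) ≤ (2 : ℤ) ^ k := by
  calc (2 : ℤ) = 2 ^ 1 := by norm_num
    _ ≤ 2 ^ k := pow_le_pow_right₀ (by norm_num) hk

theorem term1 {k : ℕ} (hk : 0 < k) (hodd : Odd k)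
    (h35 : ∀ p : ℕ, p.Prime → p ∣ k → p = 3 ∨ p = 5) {T : ℕ} {y : ℤ} (hy : y = ((2 : ℤ) ^ k) ^ 2)
    (hT : (T : ℤ) = y ^ 8 - y ^ 7 + y ^ 5 - y ^ 4 + y ^ 3 - y + 1) : IsSuperPsp 2 T := by
  have hx := two_le_x hk
  obtain ⟨x, hxdef⟩ : ∃ x : ℤ, x = (2 : ℤ) ^ k := ⟨_, rfl⟩
  rw [← hxdef] at hx hy
  have h30 : ((T : ℤ) : ZMod 30) = 1 := by
    have hy' : ((y : ℤ) : ZMod 30) = 4 := by
      rw [hy, hxdef]; push_cast; exact sq_zmod30 hodd
    rw [hT]; push_cast; rw [hy']; decide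
  have hApos : 1 < x ^ 8 - x ^ 7 + x ^ 5 - x ^ 4 + x ^ 3 - x + 1 := by
    have h1 : 0 < x ^ 7 * (x - 1) := by apply mul_pos <;> [positivity; linarith]
    have h2 : 0 < x ^ 4 * (x - 1) := by apply mul_pos <;> [positivity; linarith]
    have h3 : 0 < x * (x - 1) * (x + 1) := by
      apply mul_pos <;> [apply mul_pos <;> [positivity; linarith]; linarith]
    nlinarith
  have hBpos : 1 < x ^ 8 + x ^ 7 - x ^ 5 - x ^ 4 - x ^ 3 + x + 1 := by
    have h1 : 0 < x ^ 4 * (x - 1) * (x ^ 3 - 1 + x ^ 3 + x ^ 2 + x) := by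
      have : (1 : ℤ) ≤ x ^ 3 := one_le_pow₀ (by linarith)
      apply mul_pos <;> [apply mul_pos <;> [positivity; linarith]; positivity]
    have h3 : 0 < x ^ 7 - x ^ 3 := by
      have : x ^ 7 - x ^ 3 = x ^ 3 * (x - 1) * (x + 1) * (x ^ 2 + 1) := by ring
      rw [this]
      have : 0 < x - 1 := by linarith
      positivity
    have h4 : 0 < x ^ 8 - x ^ 5 - x ^ 4 := by
      have h5 : (8 : ℤ) ≤ x ^ 3 := by
        calc (8 : ℤ) = 2 ^ 3 := by norm_num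
          _ ≤ x ^ 3 := pow_le_pow_left₀ (by norm_num) hx 3
      have : x ^ 8 - x ^ 5 - x ^ 4 = x ^ 4 * (x * (x ^ 3 - 1) - 1) := by ring
      rw [this]
      have : 0 < x * (x ^ 3 - 1) - 1 := by nlinarith
      positivity
    linarith
  have hAB : (T : ℤ) = (x ^ 8 - x ^ 7 + x ^ 5 - x ^ 4 + x ^ 3 - x + 1) *
      (x ^ 8 + x ^ 7 - x ^ 5 - x ^ 4 - x ^ 3 + x + 1) := by
    rw [hT, hy]; ring
  obtain ⟨A, hA⟩ := Int.eq_ofNat_of_zero_le (by linarith : (0 : ℤ) ≤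
    x ^ 8 - x ^ 7 + x ^ 5 - x ^ 4 + x ^ 3 - x + 1)
  obtain ⟨B, hB⟩ := Int.eq_ofNat_of_zero_le (by linarith : (0 : ℤ) ≤
    x ^ 8 + x ^ 7 - x ^ 5 - x ^ 4 - x ^ 3 + x + 1)
  have hA1 : 1 < A := by rw [hA] at hApos; exact_mod_cast hApos
  have hB1 : 1 < B := by rw [hB] at hBpos; exact_mod_cast hBpos
  have hTAB : T = A * B := by
    rw [hA, hB] at hAB; exact_mod_cast hAB
  have hdvd : 2 ^ (30 * k) ≡ 1 [MOD T] := by
    apply pow_modEq_of_int_dvd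
    refine ⟨(y ^ 5 - 1) * (y ^ 2 + y + 1), ?_⟩
    rw [hT, mul_comm 30 k, pow_mul, ← hxdef]
    rw [hy]; ring
  have hT1 : 1 < T := by rw [hTAB]; nlinarith
  have hTn : ¬ T.Prime := by rw [hTAB]; exact Nat.not_prime_mul hA1.ne' hB1.ne'
  refine superPsp_of (N := 30 * k) hT1 hTn hdvd ?_
  intro q hq hqT
  have hq30 := not_dvd_of_zmod30 h30 hq hqT
  have hq2 : q ≠ 2 := by rintro rfl; exact hq30 (by norm_num)
  have hq15 : ¬ q ∣ 15 := fun h => hq30 (dvd_trans h (by norm_num))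
  have hzero : ((T : ℤ) : ZMod q) = 0 := by
    have : ((T : ℕ) : ZMod q) = 0 := (ZMod.natCast_eq_zero_iff _ _).2 hqT
    exact_mod_cast this
  have : Fact q.Prime := ⟨hq⟩
  rw [hAB] at hzero
  push_cast at hzero
  have hxq : ((x : ℤ) : ZMod q) = (2 : ZMod q) ^ k := by rw [hxdef]; push_cast; rfl
  rw [hxq] at hzero
  rcases mul_eq_zero.1 hzero with h | h
  · rw [← eval_cyc15] at h
    have h15 := dvd_sub_one_of_root hq hq2 hq15 hk (by
      intro p hp hpk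
      rcases h35 p hp hpk with rfl | rfl <;> norm_num) h
    have h2 : 2 ∣ q - 1 := by
      rcases hq.eq_two_or_odd' with h' | h'
      · exact absurd h' hq2
      · obtain ⟨c, rfl⟩ := h'; simp
    have hcop : Nat.Coprime 2 (15 * k) := by
      rw [Nat.coprime_two_left]
      exact Odd.mul (by decide) hodd
    have := Nat.Coprime.mul_dvd_of_dvd_of_dvd hcop h2 h15
    rwa [show 2 * (15 * k) = 30 * k by ring] at this
  · rw [← eval_cyc30] at h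
    exact dvd_sub_one_of_root hq hq2 hq30 hk (by
      intro p hp hpk
      rcases h35 p hp hpk with rfl | rfl <;> norm_num) h

theorem term3 {k : ℕ} (hk : 0 < k) (hodd : Odd k)
    (h35 : ∀ p : ℕ, p.Prime → p ∣ k → p = 3 ∨ p = 5) {T : ℕ} {y : ℤ} (hy : y = ((2 : ℤ) ^ k) ^ 2)
    (hT : (T : ℤ) = y ^ 8 + y ^ 7 - y ^ 5 - y ^ 4 - y ^ 3 + y + 1) : IsSuperPsp 2 T := by
  have hx := two_le_x hk
  obtain ⟨x, hxdef⟩ : ∃ x : ℤ, x = (2 : ℤ) ^ k := ⟨_, rfl⟩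
  rw [← hxdef] at hx hy
  have h30 : ((T : ℤ) : ZMod 30) = 1 := by
    have hy' : ((y : ℤ) : ZMod 30) = 4 := by
      rw [hy, hxdef]; push_cast; exact sq_zmod30 hodd
    rw [hT]; push_cast; rw [hy']; decide
  -- the Aurifeuillian factorisation, `x = 2 h ^ 2`
  obtain ⟨s, hs⟩ := hodd
  obtain ⟨h, hh⟩ : ∃ h : ℤ, h = 2 ^ s := ⟨_, rfl⟩
  have hxh : x = 2 * h ^ 2 := by
    rw [hxdef, hs, hh, pow_succ, mul_comm 2 s, pow_mul, mul_comm]
  have hh1 : 1 ≤ h := by rw [hh]; exact one_le_pow₀ (by norm_num)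
  have hAB : (T : ℤ) = (1 - 2*h + 2*h^2 - 4*h^3 + 8*h^4 - 16*h^5 + 24*h^6 - 32*h^7 + 48*h^8
      - 64*h^9 + 96*h^10 - 128*h^11 + 128*h^12 - 128*h^13 + 128*h^14 - 256*h^15 + 256*h^16) *
      (1 + 2*h + 2*h^2 + 4*h^3 + 8*h^4 + 16*h^5 + 24*h^6 + 32*h^7 + 48*h^8
      + 64*h^9 + 96*h^10 + 128*h^11 + 128*h^12 + 128*h^13 + 128*h^14 + 256*h^15 + 256*h^16) := by
    rw [hT, hy, hxh]; ring
  have hApos : 1 < (1 - 2*h + 2*h^2 - 4*h^3 + 8*h^4 - 16*h^5 + 24*h^6 - 32*h^7 + 48*h^8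
      - 64*h^9 + 96*h^10 - 128*h^11 + 128*h^12 - 128*h^13 + 128*h^14 - 256*h^15 + 256*h^16) := by
    obtain ⟨t, ht⟩ := Int.eq_ofNat_of_zero_le (by linarith : 0 ≤ h - 1)
    have ht' : h = t + 1 := by
      have : h - 1 = (t : ℤ) := ht
      linarith
    rw [ht', ← sub_pos]
    ring_nf
    positivity
  have hBpos : 1 < (1 + 2*h + 2*h^2 + 4*h^3 + 8*h^4 + 16*h^5 + 24*h^6 + 32*h^7 + 48*h^8
      + 64*h^9 + 96*h^10 + 128*h^11 + 128*h^12 + 128*h^13 + 128*h^14 + 256*h^15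
      + 256*h^16) := by
    rw [← sub_pos]
    have h0 : 0 < h := by linarith
    ring_nf
    positivity
  obtain ⟨A, hA⟩ := Int.eq_ofNat_of_zero_le (le_of_lt (lt_trans zero_lt_one hApos))
  obtain ⟨B, hB⟩ := Int.eq_ofNat_of_zero_le (le_of_lt (lt_trans zero_lt_one hBpos))
  have hA1 : 1 < A := by rw [hA] at hApos; exact_mod_cast hApos
  have hB1 : 1 < B := by rw [hB] at hBpos; exact_mod_cast hBpos
  have hTAB : T = A * B := by
    rw [hA, hB] at hAB; exact_mod_cast hAB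
  have hdvd : 2 ^ (60 * k) ≡ 1 [MOD T] := by
    apply pow_modEq_of_int_dvd
    refine ⟨(y ^ 5 + 1) * (y ^ 2 - y + 1) * (y ^ 15 - 1), ?_⟩
    rw [hT, mul_comm 60 k, pow_mul, ← hxdef]
    rw [hy]; ring
  have hT1 : 1 < T := by rw [hTAB]; nlinarith
  have hTn : ¬ T.Prime := by rw [hTAB]; exact Nat.not_prime_mul hA1.ne' hB1.ne'
  refine superPsp_of (N := 60 * k) hT1 hTn hdvd ?_
  intro q hq hqT
  have hq30 := not_dvd_of_zmod30 h30 hq hqT
  have hq2 : q ≠ 2 := by rintro rfl; exact hq30 (by norm_num)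
  have hq60 : ¬ q ∣ 60 := by
    intro h
    rcases (Nat.Prime.dvd_mul hq).1 (show q ∣ 30 * 2 from h) with h' | h'
    · exact hq30 h'
    · exact hq2 ((Nat.prime_dvd_prime_iff_eq hq Nat.prime_two).1 h')
  have hzero : ((T : ℤ) : ZMod q) = 0 := by
    have : ((T : ℕ) : ZMod q) = 0 := (ZMod.natCast_eq_zero_iff _ _).2 hqT
    exact_mod_cast this
  have : Fact q.Prime := ⟨hq⟩
  have hxq : ((x : ℤ) : ZMod q) = (2 : ZMod q) ^ k := by rw [hxdef]; push_cast; rfl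
  have hroot : (cyclotomic 60 (ZMod q)).eval ((2 : ZMod q) ^ k) = 0 := by
    rw [eval_cyc60, ← hxq, ← hzero, hT, hy]
    push_cast
    ring
  exact dvd_sub_one_of_root hq hq2 hq60 hk (by
      intro p hp hpk
      rcases h35 p hp hpk with rfl | rfl <;> norm_num) hroot

/-- The middle term is a super pseudoprime when it is composite, `k` a power of `3`. -/
theorem term2 {k : ℕ} (hk : 0 < k) (hodd : Odd k)
    (h3 : ∀ p : ℕ, p.Prime → p ∣ k → p = 3) {T : ℕ} {y : ℤ} (hy : y = ((2 : ℤ) ^ k) ^ 2)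
    (hT : (T : ℤ) = y ^ 8 - y ^ 4 + 1) (hTn : ¬ T.Prime) : IsSuperPsp 2 T := by
  have hx := two_le_x hk
  obtain ⟨x, hxdef⟩ : ∃ x : ℤ, x = (2 : ℤ) ^ k := ⟨_, rfl⟩
  rw [← hxdef] at hx hy
  have h30 : ((T : ℤ) : ZMod 30) = 1 := by
    have hy' : ((y : ℤ) : ZMod 30) = 4 := by
      rw [hy, hxdef]; push_cast; exact sq_zmod30 hodd
    rw [hT]; push_cast; rw [hy']; decide
  have hT1 : 1 < T := by
    have : (1 : ℤ) < T := by
      rw [hT, hy]
      have h1 : 1 < x ^ 8 := one_lt_pow₀ (by linarith) (by norm_num)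
      nlinarith
    exact_mod_cast this
  have hdvd : 2 ^ (48 * k) ≡ 1 [MOD T] := by
    apply pow_modEq_of_int_dvd
    refine ⟨(y ^ 4 + 1) * (y ^ 12 - 1), ?_⟩
    rw [hT, mul_comm 48 k, pow_mul, ← hxdef]
    rw [hy]; ring
  refine superPsp_of (N := 48 * k) hT1 hTn hdvd ?_
  intro q hq hqT
  have hq30 := not_dvd_of_zmod30 h30 hq hqT
  have hq2 : q ≠ 2 := by rintro rfl; exact hq30 (by norm_num)
  have hq48 : ¬ q ∣ 48 := by
    intro h
    have h' : q ∣ 30 ^ 4 := dvd_trans h (by norm_num)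
    exact hq30 (hq.dvd_of_dvd_pow h')
  have hzero : ((T : ℤ) : ZMod q) = 0 := by
    have : ((T : ℕ) : ZMod q) = 0 := (ZMod.natCast_eq_zero_iff _ _).2 hqT
    exact_mod_cast this
  have : Fact q.Prime := ⟨hq⟩
  have hxq : ((x : ℤ) : ZMod q) = (2 : ZMod q) ^ k := by rw [hxdef]; push_cast; rfl
  have hroot : (cyclotomic 48 (ZMod q)).eval ((2 : ZMod q) ^ k) = 0 := by
    rw [eval_cyc48, ← hxq, ← hzero, hT, hy]
    push_cast
    ring
  exact dvd_sub_one_of_root hq hq2 hq48 hk (by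
      intro p hp hpk
      rw [h3 p hp hpk]; norm_num) hroot

/-- If the middle term for `k` is prime, then the middle term for `5 * k` is a super
pseudoprime. -/
theorem term2' {k : ℕ} (hk : 0 < k) (hodd : Odd k)
    (h3 : ∀ p : ℕ, p.Prime → p ∣ k → p = 3) {S T : ℕ} {y z : ℤ} (hy : y = ((2 : ℤ) ^ k) ^ 2)
    (hS : (S : ℤ) = y ^ 8 - y ^ 4 + 1) (hSp : S.Prime)
    (hz : z = ((2 : ℤ) ^ (5 * k)) ^ 2)
    (hT : (T : ℤ) = z ^ 8 - z ^ 4 + 1) : IsSuperPsp 2 T := by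
  have hx := two_le_x hk
  obtain ⟨x, hxdef⟩ : ∃ x : ℤ, x = (2 : ℤ) ^ k := ⟨_, rfl⟩
  have hzy : z = y ^ 5 := by
    rw [hz, hy]; ring
  rw [← hxdef] at hx hy
  have hy' : ((y : ℤ) : ZMod 30) = 4 := by
    rw [hy, hxdef]; push_cast; exact sq_zmod30 hodd
  have h30 : ((T : ℤ) : ZMod 30) = 1 := by
    rw [hT, hzy]; push_cast; rw [hy']; decide
  have hS30 : ((S : ℤ) : ZMod 30) = 1 := by
    rw [hS]; push_cast; rw [hy']; decide
  -- `S ≡ 1 (mod 5)`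
  have hS5 : 5 ∣ S - 1 := by
    have h1 : ((S : ℕ) : ZMod 30) = ((1 : ℕ) : ZMod 30) := by exact_mod_cast hS30
    have h2 : S ≡ 1 [MOD 30] := (ZMod.natCast_eq_natCast_iff _ _ _).1 h1
    exact (Nat.modEq_iff_dvd' hSp.one_lt.le).1 (h2.of_dvd (by norm_num : 5 ∣ 30)).symm
  obtain ⟨C, hC⟩ : ∃ C : ℤ, C = (cyclotomic 240 ℤ).eval x := ⟨_, rfl⟩
  have hTS : (T : ℤ) = C * (S : ℤ) := by
    have := eval_cyc240 (x : ℤ)
    rw [hC, hT, hS, hzy, hy]
    rw [show x ^ 16 - x ^ 8 + 1 = (x ^ 2) ^ 8 - (x ^ 2) ^ 4 + 1 by ring] at this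
    rw [← this]; ring
  have hSlt : (S : ℤ) < T := by
    have hy4 : 4 ≤ y := by rw [hy]; nlinarith
    have h1 : (1 : ℤ) ≤ y ^ 4 := one_le_pow₀ (by linarith)
    have h2 : y ^ 8 < y ^ 20 := pow_lt_pow_right₀ (by linarith) (by norm_num)
    have h3 : (2 : ℤ) ≤ y ^ 20 := by
      calc (2 : ℤ) ≤ y := by linarith
        _ = y ^ 1 := by ring
        _ ≤ y ^ 20 := pow_le_pow_right₀ (by linarith) (by norm_num)
    rw [hT, hS, hzy]
    nlinarith
  have hSpos : (0 : ℤ) < S := by exact_mod_cast hSp.pos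
  have hCpos : 1 < C := by
    by_contra hcon
    have : C * (S : ℤ) ≤ 1 * S := mul_le_mul_of_nonneg_right (not_lt.1 hcon) hSpos.le
    linarith
  obtain ⟨c, hc⟩ := Int.eq_ofNat_of_zero_le (le_of_lt (lt_trans zero_lt_one hCpos))
  have hc1 : 1 < c := by rw [hc] at hCpos; exact_mod_cast hCpos
  have hTcS : T = c * S := by
    rw [hc] at hTS; exact_mod_cast hTS
  have hT1 : 1 < T := by
    have := hSp.one_lt
    have h2 : (S : ℕ) < T := by exact_mod_cast hSlt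
    omega
  have hTn : ¬ T.Prime := by rw [hTcS]; exact Nat.not_prime_mul hc1.ne' hSp.one_lt.ne'
  have hdvd : 2 ^ (240 * k) ≡ 1 [MOD T] := by
    apply pow_modEq_of_int_dvd
    refine ⟨(z ^ 4 + 1) * (z ^ 12 - 1), ?_⟩
    rw [hT, mul_comm 240 k, pow_mul, ← hxdef]
    rw [hzy, hy]; ring
  have hfive : ¬ 5 ∣ k := by
    intro h
    have := h3 5 Nat.prime_five h
    omega
  -- the prime factors of `S`
  have hSdvd : 48 * k ∣ S - 1 := by
    have hq30 := not_dvd_of_zmod30 hS30 hSp dvd_rfl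
    have hq2 : S ≠ 2 := by rintro rfl; exact hq30 (by norm_num)
    have hq48 : ¬ S ∣ 48 := by
      intro h
      have h' : S ∣ 30 ^ 4 := dvd_trans h (by norm_num)
      exact hq30 (hSp.dvd_of_dvd_pow h')
    have : Fact S.Prime := ⟨hSp⟩
    have hzero : ((S : ℤ) : ZMod S) = 0 := by simp
    have hxq : ((x : ℤ) : ZMod S) = (2 : ZMod S) ^ k := by rw [hxdef]; push_cast; rfl
    have hroot : (cyclotomic 48 (ZMod S)).eval ((2 : ZMod S) ^ k) = 0 := by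
      rw [eval_cyc48, ← hxq]
      have h5 : ((y ^ 8 - y ^ 4 + 1 : ℤ) : ZMod S) = 0 := by rw [← hS]; exact hzero
      rw [hy] at h5
      push_cast at h5
      rw [← h5]
      ring
    exact dvd_sub_one_of_root hSp hq2 hq48 hk (by
        intro p hp hpk
        rw [h3 p hp hpk]; norm_num) hroot
  have hSdvd' : 240 * k ∣ S - 1 := by
    have hcop : Nat.Coprime 5 (48 * k) := by
      rw [Nat.Prime.coprime_iff_not_dvd Nat.prime_five]
      intro h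
      rcases (Nat.Prime.dvd_mul Nat.prime_five).1 h with h' | h'
      · revert h'; norm_num
      · exact hfive h'
    have := Nat.Coprime.mul_dvd_of_dvd_of_dvd hcop hS5 hSdvd
    rwa [show 5 * (48 * k) = 240 * k by ring] at this
  refine superPsp_of (N := 240 * k) hT1 hTn hdvd ?_
  intro q hq hqT
  rw [hTcS] at hqT
  rcases (Nat.Prime.dvd_mul hq).1 hqT with hqc | hqS
  · have hqT' : q ∣ T := by rw [hTcS]; exact dvd_mul_of_dvd_left hqc _
    have hq30 := not_dvd_of_zmod30 h30 hq hqT'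
    have hq2 : q ≠ 2 := by rintro rfl; exact hq30 (by norm_num)
    have hq240 : ¬ q ∣ 240 := by
      intro h
      have h' : q ∣ 30 ^ 4 := dvd_trans h (by norm_num)
      exact hq30 (hq.dvd_of_dvd_pow h')
    have : Fact q.Prime := ⟨hq⟩
    have hzero : ((c : ℤ) : ZMod q) = 0 := by
      have : ((c : ℕ) : ZMod q) = 0 := (ZMod.natCast_eq_zero_iff _ _).2 hqc
      exact_mod_cast this
    have hCc : C = (c : ℤ) := hc
    have hroot : (cyclotomic 240 (ZMod q)).eval ((2 : ZMod q) ^ k) = 0 := by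
      rw [← map_cyclotomic_int 240 (ZMod q)]
      have h6 : (2 : ZMod q) ^ k = (Int.castRingHom (ZMod q)) x := by
        rw [hxdef]; simp
      rw [h6, eval_map_apply, ← hC, hCc]
      simpa using hzero
    exact dvd_sub_one_of_root hq hq2 hq240 hk (by
      intro p hp hpk
      rw [h3 p hp hpk]; norm_num) hroot
  · have : q = S := (Nat.prime_dvd_prime_iff_eq hq hSp).1 hqS
    rw [this]; exact hSdvd'

/-! ### The main theorem -/

/-- For every `j` there is an odd `k ≥ 3 ^ j` for which the progression works. -/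
theorem exists_ap (j : ℕ) : ∃ k : ℕ, j ≤ k ∧ ∀ A B C : ℕ,
    (A : ℤ) = (((2 : ℤ) ^ k) ^ 2) ^ 8 - (((2 : ℤ) ^ k) ^ 2) ^ 7 + (((2 : ℤ) ^ k) ^ 2) ^ 5
      - (((2 : ℤ) ^ k) ^ 2) ^ 4 + (((2 : ℤ) ^ k) ^ 2) ^ 3 - (((2 : ℤ) ^ k) ^ 2) + 1 →
    (B : ℤ) = (((2 : ℤ) ^ k) ^ 2) ^ 8 - (((2 : ℤ) ^ k) ^ 2) ^ 4 + 1 →
    (C : ℤ) = (((2 : ℤ) ^ k) ^ 2) ^ 8 + (((2 : ℤ) ^ k) ^ 2) ^ 7 - (((2 : ℤ) ^ k) ^ 2) ^ 5
      - (((2 : ℤ) ^ k) ^ 2) ^ 4 - (((2 : ℤ) ^ k) ^ 2) ^ 3 + (((2 : ℤ) ^ k) ^ 2) + 1 →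
    IsSuperPsp 2 A ∧ IsSuperPsp 2 B ∧ IsSuperPsp 2 C := by
  have hk : 0 < 3 ^ j := by positivity
  have hodd : Odd (3 ^ j) := Odd.pow (by decide)
  have hjk : j ≤ 3 ^ j := (Nat.lt_pow_self (by norm_num)).le
  have h3 : ∀ p : ℕ, p.Prime → p ∣ 3 ^ j → p = 3 := fun p hp hpd =>
    (Nat.prime_dvd_prime_iff_eq hp Nat.prime_three).1 (hp.dvd_of_dvd_pow hpd)
  obtain ⟨S, hS⟩ : ∃ S : ℕ, (S : ℤ) =
      (((2 : ℤ) ^ (3 ^ j)) ^ 2) ^ 8 - (((2 : ℤ) ^ (3 ^ j)) ^ 2) ^ 4 + 1 := by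
    have hx := two_le_x hk
    obtain ⟨x, hxdef⟩ : ∃ x : ℤ, x = (2 : ℤ) ^ (3 ^ j) := ⟨_, rfl⟩
    rw [← hxdef] at hx ⊢
    have h1 : 1 < x ^ 8 := one_lt_pow₀ (by linarith) (by norm_num)
    have h2 : 0 ≤ (x ^ 2) ^ 8 - (x ^ 2) ^ 4 + 1 := by nlinarith
    obtain ⟨S, hS⟩ := Int.eq_ofNat_of_zero_le h2
    exact ⟨S, hS.symm⟩
  by_cases hSp : S.Prime
  · refine ⟨5 * 3 ^ j, by omega, fun A B C hA hB hC => ?_⟩
    have hk5 : 0 < 5 * 3 ^ j := by positivity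
    have hodd5 : Odd (5 * 3 ^ j) := Odd.mul (by decide) hodd
    have h35 : ∀ p : ℕ, p.Prime → p ∣ 5 * 3 ^ j → p = 3 ∨ p = 5 := by
      intro p hp hpd
      rcases (Nat.Prime.dvd_mul hp).1 hpd with h | h
      · exact Or.inr ((Nat.prime_dvd_prime_iff_eq hp Nat.prime_five).1 h)
      · exact Or.inl (h3 p hp h)
    exact ⟨term1 hk5 hodd5 h35 rfl hA, term2' hk hodd h3 rfl hS hSp rfl hB,
      term3 hk5 hodd5 h35 rfl hC⟩
  · refine ⟨3 ^ j, hjk, fun A B C hA hB hC => ?_⟩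
    have h35 : ∀ p : ℕ, p.Prime → p ∣ 3 ^ j → p = 3 ∨ p = 5 := fun p hp hpd =>
      Or.inl (h3 p hp hpd)
    have hBS : B = S := by
      have : (B : ℤ) = S := by rw [hB, hS]
      exact_mod_cast this
    refine ⟨term1 hk hodd h35 rfl hA, ?_, term3 hk hodd h35 rfl hC⟩
    rw [hBS]
    exact term2 hk hodd h3 rfl hS hSp

/-- **Szymiczek's problem.** There are infinitely many three-term arithmetic progressions
`(x, x + r, x + 2 r)`, `r ≥ 1`, all of whose terms are super pseudoprimes to base `2`. -/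
theorem result :
    {p : ℕ × ℕ | 1 ≤ p.1 ∧ 1 ≤ p.2 ∧ IsSuperPsp 2 p.1 ∧ IsSuperPsp 2 (p.1 + p.2) ∧
      IsSuperPsp 2 (p.1 + 2 * p.2)}.Infinite := by
  apply Set.Infinite.of_image Prod.fst
  apply Set.infinite_of_forall_exists_gt
  intro b
  obtain ⟨k, hbk, hk⟩ := exists_ap (b + 1)
  have hx := two_le_x (show 0 < k by omega)
  have hkx : (k : ℤ) < (2 : ℤ) ^ k := by exact_mod_cast Nat.lt_two_pow_self
  obtain ⟨x, hxdef⟩ : ∃ x : ℤ, x = (2 : ℤ) ^ k := ⟨_, rfl⟩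
  rw [← hxdef] at hx hkx hk
  obtain ⟨y, hy⟩ : ∃ y : ℤ, y = x ^ 2 := ⟨_, rfl⟩
  rw [← hy] at hk
  have hy4 : 4 ≤ y := by rw [hy]; nlinarith
  have hxy : x < y := by rw [hy]; nlinarith
  have hApos : y < y ^ 8 - y ^ 7 + y ^ 5 - y ^ 4 + y ^ 3 - y + 1 := by
    have h1 : y ^ 7 - y ^ 3 ≥ 0 := by
      have := pow_le_pow_right₀ (show (1 : ℤ) ≤ y by linarith) (show 3 ≤ 7 by norm_num)
      linarith
    have h2 : 0 < y ^ 7 * (y - 1) := by apply mul_pos <;> [positivity; linarith]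
    have h3 : 0 < y ^ 4 * (y - 1) := by apply mul_pos <;> [positivity; linarith]
    have h4 : 2 * y < y ^ 3 := by
      have h5 : 16 ≤ y ^ 2 := by nlinarith
      have h6 : y ^ 3 = y * y ^ 2 := by ring
      rw [h6]
      nlinarith
    nlinarith
  have hrpos : 0 < y * (y ^ 2 - 1) ^ 2 * (y ^ 2 + 1) := by
    have : 0 < y ^ 2 - 1 := by nlinarith
    positivity
  obtain ⟨A, hA⟩ := Int.eq_ofNat_of_zero_le (by linarith : (0 : ℤ) ≤
    y ^ 8 - y ^ 7 + y ^ 5 - y ^ 4 + y ^ 3 - y + 1)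
  obtain ⟨r, hr⟩ := Int.eq_ofNat_of_zero_le hrpos.le
  have hA' : (A : ℤ) = y ^ 8 - y ^ 7 + y ^ 5 - y ^ 4 + y ^ 3 - y + 1 := hA.symm
  have hr' : (r : ℤ) = y * (y ^ 2 - 1) ^ 2 * (y ^ 2 + 1) := hr.symm
  obtain ⟨h1, h2, h3⟩ := hk A (A + r) (A + 2 * r) hA'
    (by push_cast; rw [hA', hr']; ring) (by push_cast; rw [hA', hr']; ring)
  refine ⟨A, ⟨(A, r), ⟨?_, ?_, h1, h2, h3⟩, rfl⟩, ?_⟩
  · exact h1.1.le
  · have : (0 : ℤ) < r := by rw [hr']; exact hrpos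
    exact_mod_cast this
  · have h5 : (b : ℤ) + 1 ≤ k := by exact_mod_cast hbk
    have : (b : ℤ) < A := by linarith
    exact_mod_cast this

end Pool.Agent.Results.MP_3527b9_nt.SuperPspAP
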